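import Mathlib

section

set_option autoImplicit false

namespace Pool.Agent.MP_75f689_ag

section Filtration

variable {S : Type*} [CommRing S]

/-- The monomial in three ring elements. -/
def mon (g : Fin 3 → S) (α : Fin 3 → ℕ) : S := ∏ i, g i ^ α i

lemma mon_mem (g : Fin 3 → S) (α : Fin 3 → ℕ) :
    mon g α ∈ Ideal.span (Set.range g) ^ (∑ i, α i) := by
  rw [← Finset.prod_pow_eq_pow_sum]
  exact Ideal.prod_mem_prod fun i _ => Ideal.pow_mem_pow (Ideal.subset_span (Set.mem_range_self i)) _

lemma mon_add_single (g : Fin 3 → S) (α : Fin 3 → ℕ) (i : Fin 3) :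
    mon g (α + Pi.single i 1) = mon g α * g i := by
  unfold mon
  simp only [Pi.add_apply, pow_add, Finset.prod_mul_distrib]
  congr 1
  rw [Finset.prod_eq_single i]
  · simp
  · intro j _ hj
    simp [Pi.single_eq_of_ne hj]
  · simp

lemma pow_le_span (g : Fin 3 → S) (n : ℕ) :
    Ideal.span (Set.range g) ^ n ≤
      Ideal.span {s | ∃ α : Fin 3 → ℕ, ∑ i, α i = n ∧ s = mon g α} := by
  induction n with
  | zero =>
    intro s _
    have h1 : (1 : S) ∈ Ideal.span {s | ∃ α : Fin 3 → ℕ, ∑ i, α i = 0 ∧ s = mon g α} :=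
      Ideal.subset_span ⟨0, by simp, by simp [mon]⟩
    simpa using Ideal.mul_mem_left _ s h1
  | succ n ih =>
    rw [pow_succ]
    refine le_trans (Ideal.mul_mono_left ih) ?_
    rw [Ideal.span_mul_span']
    apply Ideal.span_mono
    rintro _ ⟨_, ⟨α, hα, rfl⟩, _, ⟨i, rfl⟩, rfl⟩
    refine ⟨α + Pi.single i 1, ?_, (mon_add_single g α i).symm⟩
    simp [Finset.sum_add_distrib, hα]

lemma mon_mem_of_le (g : Fin 3 → S) (K : Ideal S) (n : ℕ) (hg : ∀ i, g i ^ n ∈ K)
    (α : Fin 3 → ℕ) (i : Fin 3) (hi : n ≤ α i) : mon g α ∈ K := by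
  unfold mon
  rw [← Finset.mul_prod_erase _ _ (Finset.mem_univ i)]
  apply Ideal.mul_mem_right
  obtain ⟨c, hc⟩ := Nat.exists_eq_add_of_le hi
  rw [hc, pow_add]
  exact Ideal.mul_mem_right _ _ (hg i)

lemma pow_three_mul_le (g : Fin 3 → S) (K : Ideal S) (n : ℕ) (hg : ∀ i, g i ^ n ∈ K) :
    Ideal.span (Set.range g) ^ (3 * n) ≤ K := by
  refine le_trans (pow_le_span g _) ?_
  rw [Ideal.span_le]
  rintro _ ⟨α, hα, rfl⟩
  have : ∃ i, n ≤ α i := by
    by_contra h
    push Not at h
    have h0 := h 0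
    have h1 := h 1
    have h2 := h 2
    simp [Fin.sum_univ_three] at hα
    omega
  obtain ⟨i, hi⟩ := this
  exact mon_mem_of_le g K n hg α i hi

variable {k : Type*} [Field k] [Algebra k S] {ι : Type*} [Fintype ι]

lemma filt_step (g : Fin 3 → S) (u : ι → S)
    (hu : ∀ s : S, ∃ c : ι → k, s - ∑ j, c j • u j ∈ Ideal.span (Set.range g)) (n : ℕ)
    (s : S) (hs : s ∈ Ideal.span (Set.range g) ^ n) :
    s ∈ Submodule.span k {s | ∃ (j : ι) (α : Fin 3 → ℕ), ∑ i, α i = n ∧ s = u j * mon g α} ⊔
      (Ideal.span (Set.range g) ^ (n + 1)).restrictScalars k := by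
  have hs' := pow_le_span g n hs
  set W := Submodule.span k {s | ∃ (j : ι) (α : Fin 3 → ℕ), ∑ i, α i = n ∧ s = u j * mon g α} ⊔
      (Ideal.span (Set.range g) ^ (n + 1)).restrictScalars k with hW
  suffices h : ∀ r : S, r * s ∈ W by simpa using h 1
  clear hs
  induction hs' using Submodule.span_induction with
  | mem x hx =>
    obtain ⟨α, hα, rfl⟩ := hx
    intro r
    obtain ⟨c, hc⟩ := hu r
    have e : r * mon g α = (∑ j, c j • (u j * mon g α)) + mon g α * (r - ∑ j, c j • u j) := by
      simp only [mul_sub, Finset.mul_sum, mul_smul_comm, mul_comm (u _) (mon g α)]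
      ring
    rw [e]
    refine Submodule.add_mem_sup (Submodule.sum_mem _ fun j _ => Submodule.smul_mem _ _
      (Submodule.subset_span ⟨j, α, hα, rfl⟩)) ?_
    rw [Submodule.restrictScalars_mem, pow_succ]
    exact Ideal.mul_mem_mul (hα ▸ mon_mem g α) hc
  | zero => intro r; simp
  | add x y _ _ hx hy => intro r; rw [mul_add]; exact W.add_mem (hx r) (hy r)
  | smul a x _ hx => intro r; rw [smul_eq_mul, ← mul_assoc]; exact hx _

lemma filt_range (g : Fin 3 → S) (u : ι → S)
    (hu : ∀ s : S, ∃ c : ι → k, s - ∑ j, c j • u j ∈ Ideal.span (Set.range g)) (a b : ℕ)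
    (hab : a ≤ b) (s : S) (hs : s ∈ Ideal.span (Set.range g) ^ a) :
    s ∈ Submodule.span k
        {s | ∃ (j : ι) (α : Fin 3 → ℕ), a ≤ ∑ i, α i ∧ ∑ i, α i < b ∧ s = u j * mon g α} ⊔
      (Ideal.span (Set.range g) ^ b).restrictScalars k := by
  induction b, hab using Nat.le_induction with
  | base => exact Submodule.mem_sup_right hs
  | succ b hab ih =>
    obtain ⟨x, hx, y, hy, rfl⟩ := Submodule.mem_sup.mp ih
    obtain ⟨y1, hy1, y2, hy2, rfl⟩ := Submodule.mem_sup.mp (filt_step g u hu b y hy)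
    rw [← add_assoc]
    refine Submodule.add_mem_sup (Submodule.add_mem _ ?_ ?_) hy2
    · refine Submodule.span_mono ?_ hx
      rintro _ ⟨j, α, h1, h2, rfl⟩
      exact ⟨j, α, h1, by omega, rfl⟩
    · refine Submodule.span_mono ?_ hy1
      rintro _ ⟨j, α, h1, rfl⟩
      exact ⟨j, α, by omega, by omega, rfl⟩

/-- Exponent vectors of total degree less than `n`. -/
def tri (n : ℕ) : Finset (Σ _ : ℕ, Σ _ : ℕ, ℕ) :=
  (Finset.range n).sigma fun i => (Finset.range (n - i)).sigma fun j => Finset.range (n - i - j)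

/-- The exponent vector attached to an index. -/
def triv (t : Σ _ : ℕ, Σ _ : ℕ, ℕ) : Fin 3 → ℕ := ![t.1, t.2.1, t.2.2]

lemma exists_tri (n : ℕ) (α : Fin 3 → ℕ) (h : ∑ i, α i < n) : ∃ t ∈ tri n, triv t = α := by
  refine ⟨⟨α 0, α 1, α 2⟩, ?_, ?_⟩
  · simp only [Fin.sum_univ_three] at h
    simp only [tri, Finset.mem_sigma, Finset.mem_range]
    omega
  · ext i
    fin_cases i <;> rfl

lemma two_mul_sum (m : ℕ) : 2 * ∑ j ∈ Finset.range m, (m - j) = m * (m + 1) := by
  induction m with
  | zero => simp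
  | succ m ih =>
    rw [Finset.sum_range_succ']
    simp only [Nat.add_sub_add_right, Nat.sub_zero, mul_add] at ih ⊢
    nlinarith

lemma card_tri (n : ℕ) : 6 * (tri n).card = n * (n + 1) * (n + 2) := by
  have h : (tri n).card = ∑ i ∈ Finset.range n, ∑ j ∈ Finset.range (n - i), (n - i - j) := by
    simp [tri, Finset.card_sigma]
  rw [h]
  clear h
  induction n with
  | zero => simp
  | succ n ih =>
    rw [Finset.sum_range_succ']
    have h2 := two_mul_sum (n + 1)
    simp only [Nat.add_sub_add_right, Nat.sub_zero, mul_add] at ih h2 ⊢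
    nlinarith

/-- The spanning statement behind the length inequality. -/
lemma span_top (q : ℕ) (hq : 1 ≤ q) (g : Fin 3 → S) (hg : ∀ i, g i ^ q = 0) (u : ι → S)
    (hu : ∀ s : S, ∃ c : ι → k, s - ∑ j, c j • u j ∈ Ideal.span (Set.range g))
    (F : S) (hF : F ∈ Ideal.span (Set.range g) ^ (q + 1)) (W : Submodule k S)
    (hU : ∀ s : S, ∃ r : S, s - F * r ∈ W)
    (h1 : ∀ (j : ι), ∀ t ∈ tri (q - 1), u j * mon g (fun i => q - 1 - triv t i) ∈ W)
    (h2 : ∀ (j : ι), ∀ t ∈ tri (q - 1), F * (u j * mon g (triv t)) ∈ W) (s : S) : s ∈ W := by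
  set J := Ideal.span (Set.range g) with hJ
  have hz : J ^ (3 * q) ≤ ⊥ := pow_three_mul_le g ⊥ q (by simpa using hg)
  have hA : ∀ s ∈ J ^ (2 * q), s ∈ W := by
    intro s hs
    obtain ⟨x, hx, y, hy, rfl⟩ := Submodule.mem_sup.mp
      (filt_range g u hu (2 * q) (3 * q) (by omega) s hs)
    have hy0 : y = 0 := by simpa using hz hy
    rw [hy0, add_zero]
    refine (Submodule.span_le.mpr ?_) hx
    rintro _ ⟨j, α, ha, -, rfl⟩
    by_cases hbig : ∃ i, q ≤ α i
    · obtain ⟨i, hi⟩ := hbig
      have : mon g α ∈ (⊥ : Ideal S) := mon_mem_of_le g ⊥ q (by simpa using hg) α i hi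
      have h0 : mon g α = 0 := by simpa using this
      simp [h0]
    · push Not at hbig
      have hs0 := hbig 0
      have hs1 := hbig 1
      have hs2 := hbig 2
      obtain ⟨t, ht, htv⟩ := exists_tri (q - 1) (fun i => q - 1 - α i) (by
        simp only [Fin.sum_univ_three] at ha ⊢
        omega)
      have := h1 j t ht
      rw [htv] at this
      have e : (fun i => q - 1 - (q - 1 - α i)) = α := by
        ext i
        have := hbig i
        omega
      simpa [e] using this
  obtain ⟨r, hr⟩ := hU s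
  suffices h : F * r ∈ W by simpa using W.add_mem hr h
  obtain ⟨x, hx, y, hy, rfl⟩ := Submodule.mem_sup.mp
    (filt_range g u hu 0 (q - 1) (by omega) r (by simp))
  rw [mul_add]
  refine W.add_mem ?_ (hA _ ?_)
  · clear hr
    induction hx using Submodule.span_induction with
    | mem x hx =>
      obtain ⟨j, α, -, ha, rfl⟩ := hx
      obtain ⟨t, ht, rfl⟩ := exists_tri (q - 1) α ha
      exact h2 j t ht
    | zero => simp
    | add x y _ _ hx hy => rw [mul_add]; exact W.add_mem hx hy
    | smul a x _ hx => rw [mul_smul_comm]; exact W.smul_mem _ hx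
  · have e : 2 * q = (q + 1) + (q - 1) := by omega
    rw [e, pow_add]
    exact Ideal.mul_mem_mul hF hy

end Filtration

end Pool.Agent.MP_75f689_ag

end

section

set_option autoImplicit false

namespace Pool.Agent.MP_75f689_ag

open MvPolynomial

section Frob

variable {k : Type*} [Field k] {σ : Type*}

lemma expand_eq_pow [Fintype k] (e : ℕ) (p : MvPolynomial σ k) :
    expand (Fintype.card k ^ e) p = p ^ (Fintype.card k ^ e) := by
  obtain ⟨l, hl⟩ := CharP.exists k
  obtain ⟨n, hlp, hn⟩ := FiniteField.card k l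
  have : Fact l.Prime := ⟨hlp⟩
  induction p using MvPolynomial.induction_on with
  | C a => rw [expand_C, ← C_pow, FiniteField.pow_card_pow]
  | add p r hp hr =>
    rw [map_add, hp, hr, hn, ← pow_mul, add_pow_char_pow]
  | mul_X p i hp => rw [map_mul, hp, expand_X, mul_pow]

open Classical in
/-- Extraction of the component of a polynomial along a residue class of exponents. -/
noncomputable def cart (q : ℕ) (α : σ → ℕ) : MvPolynomial σ k →ₗ[k] MvPolynomial σ k :=
  (basisMonomials σ k).constr k fun γ =>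
    if ∀ i, γ i % q = α i then monomial (γ.mapRange (· / q) (by simp)) 1 else 0

open Classical in
lemma cart_monomial (q : ℕ) (α : σ → ℕ) (γ : σ →₀ ℕ) (c : k) :
    cart q α (monomial γ c) =
      if ∀ i, γ i % q = α i then monomial (γ.mapRange (· / q) (by simp)) c else 0 := by
  have h : (monomial γ c : MvPolynomial σ k) = c • basisMonomials σ k γ := by
    simp [smul_monomial]
  rw [h, map_smul, cart, Module.Basis.constr_basis]
  split_ifs
  · simp [smul_monomial]
  · simp

lemma cart_mul_expand (q : ℕ) (hq : 0 < q) (α : σ → ℕ) (p r : MvPolynomial σ k) :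
    cart q α (p * expand q r) = cart q α p * r := by
  induction r using MvPolynomial.induction_on' with
  | add r s hr hs => rw [map_add, mul_add, map_add, hr, hs, mul_add]
  | monomial β d =>
    induction p using MvPolynomial.induction_on' with
    | add p s hp hs => rw [add_mul, map_add, hp, hs, map_add, add_mul]
    | monomial γ c =>
      rw [expand_monomial, monomial_mul, cart_monomial, cart_monomial]
      have hc : (∀ i, (γ + q • β) i % q = α i) ↔ ∀ i, γ i % q = α i := by
        simp [Nat.add_mul_mod_self_left]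
      by_cases h : ∀ i, γ i % q = α i
      · rw [if_pos h, if_pos (hc.mpr h), monomial_mul]
        congr 2
        ext i
        simp [Nat.add_mul_div_left _ _ hq]
      · rw [if_neg h, if_neg (fun h' => h (hc.mp h')), zero_mul]

lemma cart_mem (q : ℕ) (hq : 0 < q) (α : σ → ℕ) (K : Ideal (MvPolynomial σ k))
    (p : MvPolynomial σ k) (hp : p ∈ K.map (expand q : MvPolynomial σ k →ₐ[k] _)) :
    cart q α p ∈ K := by
  suffices h : ∀ r, cart q α (r * p) ∈ K by simpa using h 1
  unfold Ideal.map at hp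
  induction hp using Submodule.span_induction with
  | mem x hx =>
    obtain ⟨y, hy, rfl⟩ := hx
    intro r
    rw [cart_mul_expand q hq]
    exact K.mul_mem_left _ hy
  | zero => intro r; simp
  | add x y _ _ hx hy => intro r; rw [mul_add, map_add]; exact K.add_mem (hx r) (hy r)
  | smul a x _ hx => intro r; rw [smul_eq_mul, ← mul_assoc]; exact hx _

end Frob

lemma pow_le_sup_of_step {S : Type*} [CommRing S] (m J : Ideal S) (N : ℕ)
    (h : m ^ N ≤ J ⊔ m ^ (N + 1)) (M : ℕ) : m ^ N ≤ J ⊔ m ^ (N + M) := by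
  induction M with
  | zero => simp
  | succ M ih =>
    refine le_trans ih (sup_le le_sup_left ?_)
    rw [pow_add]
    refine le_trans (Ideal.mul_mono_left h) ?_
    rw [Ideal.sup_mul, ← pow_add]
    refine sup_le_sup Ideal.mul_le_left (le_of_eq ?_)
    congr 1
    ring

lemma pow_mem_pow_succ {S : Type*} [CommRing S] (J : Ideal S) (f : S) (a q : ℕ)
    (h : f ^ a ∈ J ^ (a + 1)) (hq : a * a ≤ q) : f ^ q ∈ J ^ (q + 1) := by
  rcases Nat.eq_zero_or_pos a with rfl | ha
  · have : J = ⊤ := by simpa [Ideal.eq_top_iff_one] using h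
    simp [this, Ideal.top_pow]
  · have h1 := Nat.div_add_mod q a
    have h2 := Nat.mod_lt q ha
    have h3 : a ≤ q / a := (Nat.le_div_iff_mul_le ha).mpr hq
    have h4 : (f ^ a) ^ (q / a) ∈ (J ^ (a + 1)) ^ (q / a) := Ideal.pow_mem_pow h _
    rw [← pow_mul, ← pow_mul] at h4
    have h5 : f ^ q = f ^ (a * (q / a)) * f ^ (q % a) := by rw [← pow_add, h1]
    rw [h5]
    refine Ideal.mul_mem_right _ _ (Ideal.pow_le_pow_right ?_ h4)
    nlinarith

/-- The inequality over a finite field. -/
theorem charP_ineq {k : Type} [Field k] [Finite k] (g : Fin 3 → MvPolynomial (Fin 3) k)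
    (f : MvPolynomial (Fin 3) k) (N a : ℕ)
    (h1 : idealOfVars (Fin 3) k ^ N ≤
      Ideal.span (Set.range g) ⊔ idealOfVars (Fin 3) k ^ (N + 1))
    (h2 : f ^ a ∈ Ideal.span (Set.range g) ^ (a + 1) ⊔ idealOfVars (Fin 3) k ^ (N * (a + 1)))
    {κ : Type} [Fintype κ] (v : κ → MvPolynomial (Fin 3) k)
    (hv : ∀ p : MvPolynomial (Fin 3) k, ∃ (c : κ → k) (r : MvPolynomial (Fin 3) k),
      p - ∑ l, c l • v l - f * r ∈ Ideal.span (Set.range g) ⊔ idealOfVars (Fin 3) k ^ N)
    (hμ : 0 < Module.finrank k (MvPolynomial (Fin 3) k ⧸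
      (Ideal.span (Set.range g) ⊔ idealOfVars (Fin 3) k ^ N))) :
    2 * Module.finrank k (MvPolynomial (Fin 3) k ⧸
      (Ideal.span (Set.range g) ⊔ idealOfVars (Fin 3) k ^ N)) < 3 * Fintype.card κ := by
  classical
  have := Fintype.ofFinite k
  set m := idealOfVars (Fin 3) k with hm
  set J := Ideal.span (Set.range g) with hJ
  set K := J ⊔ m ^ N with hK
  set μ := Module.finrank k (MvPolynomial (Fin 3) k ⧸ K) with hμdef
  have : Module.Finite k (MvPolynomial (Fin 3) k ⧸ K) := Module.finite_of_finrank_pos hμ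
  let b := Module.finBasis k (MvPolynomial (Fin 3) k ⧸ K)
  choose u hub using fun j => Ideal.Quotient.mk_surjective (I := K) (b j)
  have hu : ∀ p : MvPolynomial (Fin 3) k, ∃ c : Fin μ → k, p - ∑ j, c j • u j ∈ K := by
    intro p
    refine ⟨fun j => b.repr (Ideal.Quotient.mk K p) j, ?_⟩
    rw [← Ideal.Quotient.eq, ← Ideal.Quotient.mkₐ_eq_mk k, map_sum]
    simp only [map_smul, Ideal.Quotient.mkₐ_eq_mk, hub]
    exact (b.sum_repr _).symm
  -- the Frobenius power
  set q := Fintype.card k ^ (a * a + 1) with hqdef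
  have hqa : a * a + 1 < q := Nat.lt_pow_self Fintype.one_lt_card
  have hq0 : 0 < q := by omega
  let E : MvPolynomial (Fin 3) k →ₐ[k] MvPolynomial (Fin 3) k := expand q
  have hE : ∀ p, E p = p ^ q := fun p => expand_eq_pow _ p
  let Kq : Ideal (MvPolynomial (Fin 3) k) := K.map E
  let xa : (Fin 3 → Fin q) → MvPolynomial (Fin 3) k := fun α =>
    monomial (Finsupp.equivFunOnFinite.symm fun i => (α i : ℕ)) 1
  let π : MvPolynomial (Fin 3) k →ₗ[k] ((Fin 3 → Fin q) → MvPolynomial (Fin 3) k ⧸ K) :=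
    LinearMap.pi fun α => (Ideal.Quotient.mkₐ k K).toLinearMap ∘ₗ cart q fun i => (α i : ℕ)
  have hπK : ∀ p ∈ Kq, π p = 0 := by
    intro p hp
    ext α
    simpa [π, Ideal.Quotient.eq_zero_iff_mem] using cart_mem q hq0 _ K p hp
  have hπsurj : Function.Surjective π := by
    intro y
    choose r hr using fun α => Ideal.Quotient.mk_surjective (I := K) (y α)
    refine ⟨∑ β, xa β * E (r β), ?_⟩
    ext α
    simp only [π, map_sum, LinearMap.pi_apply, LinearMap.comp_apply, E,
      cart_mul_expand q hq0, AlgHom.toLinearMap_apply, Ideal.Quotient.mkₐ_eq_mk]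
    rw [Finset.sum_eq_single α]
    · simp only [xa, cart_monomial]
      rw [if_pos (fun i => by simpa using Nat.mod_eq_of_lt (α i).2)]
      have : (Finsupp.mapRange (· / q) (by simp)
          (Finsupp.equivFunOnFinite.symm fun i => (α i : ℕ))) = 0 := by
        ext i
        simp
      rw [this, ← hr α]
      simp
    · intro β _ hβ
      simp only [xa, cart_monomial]
      rw [if_neg]
      · simp
      · intro h
        apply hβ
        ext i
        have := h i
        simpa [Nat.mod_eq_of_lt (β i).2] using this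
    · simp
  let w : ((Fin 3 → Fin q) × κ) ⊕ (Fin μ × tri (q - 1)) ⊕ (Fin μ × tri (q - 1)) →
      MvPolynomial (Fin 3) k :=
    Sum.elim (fun z => xa z.1 * E (v z.2)) (Sum.elim
      (fun z => u z.1 * mon g (fun i => q - 1 - triv z.2.1 i))
      (fun z => f ^ q * (u z.1 * mon g (triv z.2.1))))
  let W0 : Submodule k (MvPolynomial (Fin 3) k) :=
    (Submodule.span k (Set.range (π ∘ w))).comap π
  have hW0K : ∀ p ∈ Kq, p ∈ W0 := by
    intro p hp
    simp [W0, hπK p hp]
  have hW0w : ∀ z, w z ∈ W0 := fun z => Submodule.subset_span ⟨z, rfl⟩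
  let mk := Ideal.Quotient.mkₐ k Kq
  have hmk : Function.Surjective mk := Ideal.Quotient.mkₐ_surjective k Kq
  have hmk0 : ∀ p ∈ Kq, mk p = 0 := fun p hp => Ideal.Quotient.eq_zero_iff_mem.mpr hp
  let W : Submodule k (MvPolynomial (Fin 3) k ⧸ Kq) := W0.map mk.toLinearMap
  have hJS : Ideal.span (Set.range (mk ∘ g)) = J.map mk := by
    rw [hJ, Ideal.map_span, Set.range_comp]
  have hmKq : m ^ (3 * (N * q)) ≤ Kq := by
    apply pow_three_mul_le
    intro i
    rw [pow_mul, ← hE]
    exact Ideal.mem_map_of_mem _ (Ideal.mem_sup_right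
      (Ideal.pow_mem_pow (Ideal.subset_span (Set.mem_range_self i)) _))
  have hmN : (m ^ N).map mk ≤ J.map mk := by
    refine le_trans (Ideal.map_mono (pow_le_sup_of_step m J N h1 (3 * (N * q)))) ?_
    rw [Ideal.map_sup]
    refine sup_le le_rfl (le_trans (le_of_eq ?_) bot_le)
    rw [Ideal.map_eq_bot_iff_le_ker]
    intro p hp
    exact hmk0 p (hmKq (Ideal.pow_le_pow_right (by omega) hp))
  have hKJ : K.map mk ≤ J.map mk := by
    rw [hK, Ideal.map_sup]
    exact sup_le le_rfl hmN
  have hmon : ∀ α, mon (mk ∘ g) α = mk (mon g α) := by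
    intro α
    simp [mon]
  have hall : ∀ s, s ∈ W := by
    refine span_top (k := k) q hq0 (mk ∘ g) ?_ (mk ∘ u) ?_ (mk f ^ q) ?_ W ?_ ?_ ?_
    · intro i
      rw [Function.comp_apply, ← map_pow, ← hE]
      exact hmk0 _ (Ideal.mem_map_of_mem _ (Ideal.mem_sup_left
        (Ideal.subset_span (Set.mem_range_self i))))
    · intro s
      obtain ⟨p, rfl⟩ := hmk s
      obtain ⟨c, hc⟩ := hu p
      refine ⟨c, ?_⟩
      rw [hJS]
      have := hKJ (Ideal.mem_map_of_mem mk hc)
      simpa [map_sub, map_sum] using this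
    · rw [hJS]
      apply pow_mem_pow_succ _ _ a q _ (by omega)
      have := Ideal.mem_map_of_mem mk h2
      rw [Ideal.map_sup, map_pow, pow_mul, Ideal.map_pow, Ideal.map_pow] at this
      exact (sup_le le_rfl (Ideal.pow_right_mono hmN _)) this
    · intro s
      obtain ⟨p, rfl⟩ := hmk s
      suffices h : ∃ r, p - f ^ q * r ∈ W0 by
        obtain ⟨r, hr⟩ := h
        exact ⟨mk r, p - f ^ q * r, hr, by simp⟩
      induction p using MvPolynomial.induction_on' with
      | add p s hp hs =>
        obtain ⟨r1, h1⟩ := hp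
        obtain ⟨r2, h2⟩ := hs
        refine ⟨r1 + r2, ?_⟩
        have := W0.add_mem h1 h2
        convert this using 1
        ring
      | monomial γ d =>
        let α : Fin 3 → Fin q := fun i => ⟨γ i % q, Nat.mod_lt _ hq0⟩
        obtain ⟨c, r, hc⟩ := hv (monomial (γ.mapRange (· / q) (by simp)) d)
        have hγ : (monomial γ d : MvPolynomial (Fin 3) k) =
            xa α * E (monomial (γ.mapRange (· / q) (by simp)) d) := by
          simp only [xa, E, expand_monomial, monomial_mul, one_mul]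
          congr 2
          ext i
          simp [α, Nat.mod_add_div]
        refine ⟨xa α * E r, ?_⟩
        have h3 : xa α * E (monomial (γ.mapRange (· / q) (by simp)) d - ∑ l, c l • v l - f * r)
            ∈ W0 := hW0K _ (Ideal.mul_mem_left _ _ (Ideal.mem_map_of_mem _ hc))
        have h4 : ∑ l, c l • (xa α * E (v l)) ∈ W0 :=
          W0.sum_mem fun l _ => W0.smul_mem _ (hW0w (Sum.inl (α, l)))
        have := W0.add_mem h3 h4
        convert this using 1
        rw [hγ, map_sub, map_sub, map_mul, map_sum, hE f]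
        simp only [map_smul, mul_sub, Finset.mul_sum, mul_smul_comm]
        ring
    · intro j t ht
      exact ⟨_, hW0w (Sum.inr (Sum.inl (j, ⟨t, ht⟩))), by simp [w, hmon]⟩
    · intro j t ht
      exact ⟨_, hW0w (Sum.inr (Sum.inr (j, ⟨t, ht⟩))), by simp [w, hmon]⟩
  have htop : Submodule.span k (Set.range (π ∘ w)) = ⊤ := by
    rw [eq_top_iff]
    intro y _
    obtain ⟨p, rfl⟩ := hπsurj y
    obtain ⟨p', hp', he⟩ := hall (mk p)
    have : p - p' ∈ Kq := by
      rw [← Ideal.Quotient.eq]
      exact he.symm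
    have h5 := W0.add_mem (hW0K _ this) hp'
    simpa [W0] using h5
  have hle := finrank_le_of_span_eq_top htop
  rw [Module.finrank_pi_fintype] at hle
  simp only [Finset.sum_const, Finset.card_univ, Fintype.card_fun, Fintype.card_fin, smul_eq_mul,
    Fintype.card_sum, Fintype.card_prod, Fintype.card_coe, ← hμdef] at hle
  have hc := card_tri (q - 1)
  obtain ⟨n, hn⟩ : ∃ n, q = n + 1 := ⟨q - 1, by omega⟩
  rw [hn] at hle hc
  simp only [Nat.add_sub_cancel] at hle hc
  set T := (tri n).card
  set τ := Fintype.card κ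
  by_contra hcon
  push Not at hcon
  have e1 : 6 * T + (n + 1) = (n + 1) ^ 3 := by rw [hc]; ring
  have e2 : (n + 1) ^ 3 * (3 * τ) ≤ (n + 1) ^ 3 * (2 * μ) := Nat.mul_le_mul_left _ hcon
  have e3 : 0 < μ * (n + 1) := Nat.mul_pos hμ (by omega)
  have e4 : μ * (6 * T + (n + 1)) = μ * (n + 1) ^ 3 := by rw [e1]
  nlinarith

end Pool.Agent.MP_75f689_ag

end

section

set_option autoImplicit false

namespace Pool.Agent.MP_75f689_ag

open MvPolynomial

lemma jacobson_int : IsJacobsonRing ℤ := by
  rw [isJacobsonRing_iff_prime_eq]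
  intro P hP
  by_cases h : P = ⊥
  · subst h
    rw [eq_bot_iff]
    intro x hx
    rw [Ideal.mem_jacobson_bot] at hx
    have := Int.isUnit_iff.1 (hx x)
    have h2 : x * x = 0 := by
      rcases this with h | h <;> nlinarith [mul_self_nonneg x]
    simpa using h2
  · have := Ring.DimensionLEOne.maximalOfPrime h hP
    exact Ideal.jacobson_eq_self_of_isMaximal

lemma finite_of_finite_int (k : Type) [Field k] [Module.Finite ℤ k] : Finite k := by
  have h1 : ¬ Function.Injective (algebraMap ℤ k) := by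
    intro h
    have : IsField ℤ := isField_of_isIntegral_of_isField h (Field.toIsField k)
    exact Int.not_isField this
  have h2 : ∃ n : ℤ, n ≠ 0 ∧ algebraMap ℤ k n = 0 := by
    by_contra h
    push Not at h
    apply h1
    rw [injective_iff_map_eq_zero]
    intro a ha
    by_contra h0
    exact h a h0 ha
  obtain ⟨n, hn, hn0⟩ := h2
  refine Module.finite_of_fg_torsion k fun x => ⟨⟨n, mem_nonZeroDivisors_of_ne_zero hn⟩, ?_⟩
  change n • x = 0
  rw [Algebra.smul_def, hn0, zero_mul]

lemma exists_lift {σ K : Type} [Field K] (S : Set (MvPolynomial σ K)) (hS : S.Finite)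
    (T : Set K) (hT : T.Finite) :
    ∃ (A : Type) (_ : CommRing A) (i : A →+* K) (k : Type) (_ : Field k) (_ : Finite k)
      (φ : A →+* k) (lp : MvPolynomial σ K → MvPolynomial σ A) (ls : K → A),
      Function.Injective i ∧ (∀ p ∈ S, map i (lp p) = p) ∧ ∀ c ∈ T, i (ls c) = c := by
  classical
  let U : Set K := T ∪ ⋃ p ∈ S, (p.coeffs : Set K)
  have hU : U.Finite := hT.union (hS.biUnion fun p _ => Finset.finite_toSet _)
  let A := Algebra.adjoin ℤ U
  have : Algebra.FiniteType ℤ A := Algebra.FiniteType.adjoin_of_finite hU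
  obtain ⟨M, hM⟩ := Ideal.exists_maximal A
  let _ := Ideal.Quotient.field M
  have := jacobson_int
  have : Module.Finite ℤ (A ⧸ M) := finite_of_finite_type_of_isJacobsonRing ℤ (A ⧸ M)
  have hr : ∀ c ∈ U, c ∈ Set.range (A.val.toRingHom) := fun c hc =>
    ⟨⟨c, Algebra.subset_adjoin hc⟩, rfl⟩
  have h1 : ∀ p ∈ S, ∃ p' : MvPolynomial σ A, map A.val.toRingHom p' = p := by
    intro p hp
    refine mem_range_map_iff_coeffs_subset.mpr fun c hc => hr c (Or.inr ?_)
    simp only [Set.mem_iUnion]
    exact ⟨p, hp, hc⟩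
  have h2 : ∀ c ∈ T, ∃ c' : A, A.val.toRingHom c' = c := fun c hc => hr c (Or.inl hc)
  choose! lp hlp using h1
  choose! ls hls using h2
  exact ⟨A, inferInstance, A.val.toRingHom, A ⧸ M, inferInstance, finite_of_finite_int _,
    Ideal.Quotient.mk M, lp, ls, Subtype.val_injective, hlp, hls⟩

lemma transfer_pow {σ A K k : Type} [CommRing A] [CommRing K] [CommRing k] (i : A →+* K)
    (hi : Function.Injective i) (φ : A →+* k) (n : ℕ) (p : MvPolynomial σ A)
    (hp : map i p ∈ idealOfVars σ K ^ n) : map φ p ∈ idealOfVars σ k ^ n := by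
  rw [mem_pow_idealOfVars_iff'] at hp ⊢
  intro d hd
  have := hp d hd
  rw [coeff_map] at this ⊢
  rw [hi (this.trans (map_zero i).symm), map_zero]

lemma finite_quot (k : Type) [Field k] (I : Ideal (MvPolynomial (Fin 3) k)) (N : ℕ) :
    Module.Finite k (MvPolynomial (Fin 3) k ⧸ (I ⊔ idealOfVars (Fin 3) k ^ N)) := by
  let mk := Ideal.Quotient.mkₐ k (I ⊔ idealOfVars (Fin 3) k ^ N)
  refine ⟨Submodule.fg_def.mpr ⟨(fun γ => mk (monomial γ 1)) '' {γ | γ.degree < N},
    (Finsupp.finite_of_degree_lt N).image _, ?_⟩⟩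
  rw [eq_top_iff]
  rintro x -
  obtain ⟨p, rfl⟩ := Ideal.Quotient.mkₐ_surjective k _ x
  induction p using MvPolynomial.induction_on' with
  | monomial γ c =>
    have : (monomial γ c : MvPolynomial (Fin 3) k) = c • monomial γ 1 := by
      simp [smul_monomial]
    rw [this, map_smul]
    refine Submodule.smul_mem _ _ ?_
    by_cases h : γ.degree < N
    · exact Submodule.subset_span ⟨γ, h, rfl⟩
    · have : mk (monomial γ 1) = 0 := Ideal.Quotient.eq_zero_iff_mem.mpr
        (Ideal.mem_sup_right ((monomial_mem_pow_idealOfVars_iff N γ one_ne_zero).mpr (by omega)))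
      rw [this]
      exact Submodule.zero_mem _
  | add p q hp hq =>
    rw [map_add]
    exact Submodule.add_mem _ hp hq

end Pool.Agent.MP_75f689_ag

end
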