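import Pool.Agent.Mg.S00265.G9be25e
import Mathlib
import Pool.Agent.Mg.S00265.Gd0e378

section

set_option autoImplicit false

namespace Pool.Agent.MP_75f689_ag

open MvPolynomial

lemma mem_sup_iff_cert {S ι : Type*} [CommRing S] [Fintype ι] (g : ι → S) (I : Ideal S) (p : S) :
    p ∈ Ideal.span (Set.range g) ⊔ I ↔ ∃ c : ι → S, p - ∑ i, c i * g i ∈ I := by
  rw [Submodule.mem_sup]
  constructor
  · rintro ⟨y, hy, z, hz, rfl⟩
    obtain ⟨c, rfl⟩ := Ideal.mem_span_range_iff_exists_fun.mp hy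
    exact ⟨c, by simpa using hz⟩
  · rintro ⟨c, hc⟩
    exact ⟨_, Ideal.mem_span_range_iff_exists_fun.mpr ⟨c, rfl⟩, _, hc, by ring⟩

/-- Exponents of degree less than `n`. -/
abbrev Low (n : ℕ) : Type := {γ : Fin 3 →₀ ℕ // γ.degree < n}

noncomputable instance (n : ℕ) : Fintype (Low n) := (Finsupp.finite_of_degree_lt n).fintype

/-- The linear form given by weights on the low monomials. -/
noncomputable def pair {A : Type} [CommRing A] {n : ℕ} (w : Low n → A) :
    MvPolynomial (Fin 3) A →ₗ[A] A := ∑ γ, w γ • lcoeff A γ.1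

lemma pair_apply {A : Type} [CommRing A] {n : ℕ} (w : Low n → A) (p : MvPolynomial (Fin 3) A) :
    pair w p = ∑ γ, w γ * coeff γ.1 p := by
  simp [pair, LinearMap.sum_apply]

lemma pair_map {A B : Type} [CommRing A] [CommRing B] (i : A →+* B) {n : ℕ} (w : Low n → A)
    (p : MvPolynomial (Fin 3) A) : pair (fun γ => i (w γ)) (map i p) = i (pair w p) := by
  simp [pair_apply, coeff_map]

lemma pair_eq_zero {A : Type} [CommRing A] {n : ℕ} (w : Low n → A) (p : MvPolynomial (Fin 3) A)
    (hp : p ∈ idealOfVars (Fin 3) A ^ n) : pair w p = 0 := by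
  rw [mem_pow_idealOfVars_iff'] at hp
  rw [pair_apply]
  exact Finset.sum_eq_zero fun γ _ => by rw [hp _ γ.2, mul_zero]

lemma eq_pair {K : Type} [Field K] {n : ℕ} (L : MvPolynomial (Fin 3) K →ₗ[K] K)
    (hL : ∀ p ∈ idealOfVars (Fin 3) K ^ n, L p = 0) (p : MvPolynomial (Fin 3) K) :
    pair (fun γ : Low n => L (monomial γ.1 1)) p = L p := by
  classical
  induction p using MvPolynomial.induction_on' with
  | monomial γ c =>
    have e : (monomial γ c : MvPolynomial (Fin 3) K) = c • monomial γ 1 := by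
      simp [smul_monomial]
    rw [e, map_smul, map_smul]
    congr 1
    by_cases h : γ.degree < n
    · rw [pair_apply, Finset.sum_eq_single ⟨γ, h⟩]
      · simp
      · intro b _ hb
        rw [coeff_monomial, if_neg, mul_zero]
        intro e
        exact hb (Subtype.ext e.symm)
      · simp
    · have hm : (monomial γ 1 : MvPolynomial (Fin 3) K) ∈ idealOfVars (Fin 3) K ^ n :=
        (monomial_mem_pow_idealOfVars_iff n γ one_ne_zero).mpr (by omega)
      rw [pair_eq_zero _ _ hm, hL _ hm]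
  | add p q hp hq => rw [map_add, map_add, hp, hq]

lemma map_mon {A B : Type} [CommRing A] [CommRing B] (i : A →+* B) (g : Fin 3 → A)
    (α : Fin 3 → ℕ) : i (mon g α) = mon (fun j => i (g j)) α := by
  simp [mon]

/-- The inequality over an arbitrary field. -/
theorem field_ineq {K : Type} [Field K] (g : Fin 3 → MvPolynomial (Fin 3) K)
    (f : MvPolynomial (Fin 3) K) (N a : ℕ)
    (h1 : idealOfVars (Fin 3) K ^ N ≤
      Ideal.span (Set.range g) ⊔ idealOfVars (Fin 3) K ^ (N + 1))
    (h2 : f ^ a ∈ Ideal.span (Set.range g) ^ (a + 1) ⊔ idealOfVars (Fin 3) K ^ (N * (a + 1)))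
    (hμ : 0 < Module.finrank K (MvPolynomial (Fin 3) K ⧸
      (Ideal.span (Set.range g) ⊔ idealOfVars (Fin 3) K ^ N))) :
    2 * Module.finrank K (MvPolynomial (Fin 3) K ⧸
      (Ideal.span (Set.range g) ⊔ idealOfVars (Fin 3) K ^ N)) <
    3 * Module.finrank K (MvPolynomial (Fin 3) K ⧸
      ((Ideal.span (Set.range g) ⊔ Ideal.span {f}) ⊔ idealOfVars (Fin 3) K ^ N)) := by
  classical
  -- first certificate
  have c1 : ∀ γ : Low (N + 1), ∃ c : Fin 3 → MvPolynomial (Fin 3) K, γ.1.degree = N →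
      monomial γ.1 1 - ∑ i, c i * g i ∈ idealOfVars (Fin 3) K ^ (N + 1) := by
    intro γ
    by_cases h : γ.1.degree = N
    · obtain ⟨c, hc⟩ := (mem_sup_iff_cert g _ _).mp
        (h1 ((monomial_mem_pow_idealOfVars_iff N γ.1 one_ne_zero).mpr h.ge))
      exact ⟨c, fun _ => hc⟩
    · exact ⟨0, fun h' => absurd h' h⟩
  choose a1 ha1 using c1
  -- second certificate
  let Δ := Finset.Nat.antidiagonalTuple 3 (a + 1)
  have c2 : ∃ c : Δ → MvPolynomial (Fin 3) K,
      f ^ a - ∑ α, c α * mon g α.1 ∈ idealOfVars (Fin 3) K ^ (N * (a + 1)) := by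
    rw [← mem_sup_iff_cert]
    refine (sup_le_sup_right (le_trans (pow_le_span g (a + 1)) (Ideal.span_mono ?_)) _) h2
    rintro _ ⟨α, hα, rfl⟩
    exact ⟨⟨α, Finset.Nat.mem_antidiagonalTuple.mpr hα⟩, rfl⟩
  obtain ⟨a2, ha2⟩ := c2
  -- third certificate
  set I3 := (Ideal.span (Set.range g) ⊔ Ideal.span {f}) ⊔ idealOfVars (Fin 3) K ^ N with hI3
  have := finite_quot K (Ideal.span (Set.range g) ⊔ Ideal.span {f}) N
  set τ := Module.finrank K (MvPolynomial (Fin 3) K ⧸ I3) with hτ
  let b3 := Module.finBasis K (MvPolynomial (Fin 3) K ⧸ I3)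
  choose v hv using fun l => Ideal.Quotient.mkₐ_surjective K I3 (b3 l)
  have c3 : ∀ γ : Low N, ∃ (c : Fin τ → K) (r : MvPolynomial (Fin 3) K)
      (e : Fin 3 → MvPolynomial (Fin 3) K),
      monomial γ.1 1 - ∑ l, C (c l) * v l - f * r - ∑ i, e i * g i ∈
        idealOfVars (Fin 3) K ^ N := by
    intro γ
    have h := b3.sum_repr (Ideal.Quotient.mkₐ K I3 (monomial γ.1 1))
    set c := b3.repr (Ideal.Quotient.mkₐ K I3 (monomial γ.1 1))
    have h' : monomial γ.1 1 - ∑ l, C (c l) * v l ∈ I3 := by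
      rw [← Ideal.Quotient.eq_zero_iff_mem]
      change Ideal.Quotient.mkₐ K I3 _ = 0
      rw [map_sub, ← h, map_sum, sub_eq_zero]
      refine Finset.sum_congr rfl fun l _ => ?_
      rw [← hv, C_mul', map_smul]
    have hle : I3 ≤ (Ideal.span (Set.range g) ⊔ idealOfVars (Fin 3) K ^ N) ⊔ Ideal.span {f} :=
      (sup_right_comm _ _ _).le
    obtain ⟨y, hy, z, hz, e⟩ := Submodule.mem_sup.mp (hle h')
    obtain ⟨r, rfl⟩ := Ideal.mem_span_singleton'.mp hz
    obtain ⟨e', he'⟩ := (mem_sup_iff_cert g _ _).mp hy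
    refine ⟨c, r, e', ?_⟩
    rw [← e]
    convert he' using 1
    ring
  choose c3 r3 a3 ha3 using c3
  -- fourth certificate
  set I4 := Ideal.span (Set.range g) ⊔ idealOfVars (Fin 3) K ^ N with hI4
  have := finite_quot K (Ideal.span (Set.range g)) N
  set μ := Module.finrank K (MvPolynomial (Fin 3) K ⧸ I4) with hμdef
  let b4 := Module.finBasis K (MvPolynomial (Fin 3) K ⧸ I4)
  choose u hu using fun l => Ideal.Quotient.mkₐ_surjective K I4 (b4 l)
  let L : Fin μ → MvPolynomial (Fin 3) K →ₗ[K] K := fun j =>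
    b4.coord j ∘ₗ (Ideal.Quotient.mkₐ K I4).toLinearMap
  have hL0 : ∀ j, ∀ p ∈ I4, L j p = 0 := by
    intro j p hp
    have : Ideal.Quotient.mkₐ K I4 p = 0 := Ideal.Quotient.eq_zero_iff_mem.mpr hp
    change b4.coord j (Ideal.Quotient.mkₐ K I4 p) = 0
    rw [this, map_zero]
  have hLu : ∀ j l, L j (u l) = if l = j then 1 else 0 := by
    intro j l
    change b4.coord j (Ideal.Quotient.mkₐ K I4 (u l)) = _
    rw [hu, Module.Basis.coord_apply, Module.Basis.repr_self, Finsupp.single_apply]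
  let w : Fin μ → Low N → K := fun j γ => L j (monomial γ.1 1)
  have hw : ∀ j p, pair (w j) p = L j p := fun j p =>
    eq_pair (L j) (fun q hq => hL0 j q (Ideal.mem_sup_right hq)) p
  -- spreading out
  obtain ⟨A, _, i, k, _, _, φ, lp, ls, hi, hlp, hls⟩ := exists_lift
    (Set.range g ∪ {f} ∪ Set.range (Function.uncurry a1) ∪ Set.range a2 ∪ Set.range v ∪
      Set.range r3 ∪ Set.range (Function.uncurry a3) ∪ Set.range u)
    (by simp only [Set.finite_union]
        refine ⟨⟨⟨⟨⟨⟨⟨?_, ?_⟩, ?_⟩, ?_⟩, ?_⟩, ?_⟩, ?_⟩, ?_⟩ <;>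
          first | exact Set.finite_range _ | exact Set.finite_singleton _)
    (Set.range (Function.uncurry c3) ∪ Set.range (Function.uncurry w))
    ((Set.finite_range _).union (Set.finite_range _))
  have eg : ∀ j, map i (lp (g j)) = g j := fun j => hlp _ (by simp)
  have ef : map i (lp f) = f := hlp _ (by simp)
  have ea1 : ∀ γ j, map i (lp (a1 γ j)) = a1 γ j := fun γ j => hlp _ (by
    simp only [Set.mem_union]
    exact .inl (.inl (.inl (.inl (.inl (.inr ⟨(γ, j), rfl⟩))))))
  have ea2 : ∀ α, map i (lp (a2 α)) = a2 α := fun α => hlp _ (by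
    simp only [Set.mem_union]
    exact .inl (.inl (.inl (.inl (.inr ⟨α, rfl⟩)))))
  have ev : ∀ l, map i (lp (v l)) = v l := fun l => hlp _ (by simp)
  have er3 : ∀ γ, map i (lp (r3 γ)) = r3 γ := fun γ => hlp _ (by
    simp only [Set.mem_union]
    exact .inl (.inl (.inr ⟨γ, rfl⟩)))
  have ea3 : ∀ γ j, map i (lp (a3 γ j)) = a3 γ j := fun γ j => hlp _ (by
    simp only [Set.mem_union]
    exact .inl (.inr ⟨(γ, j), rfl⟩))
  have eu : ∀ l, map i (lp (u l)) = u l := fun l => hlp _ (by simp)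
  have ec3 : ∀ γ l, i (ls (c3 γ l)) = c3 γ l := fun γ l => hls _ (.inl ⟨(γ, l), rfl⟩)
  have ew : ∀ j γ, i (ls (w j γ)) = w j γ := fun j γ => hls _ (.inr ⟨(j, γ), rfl⟩)
  let g' : Fin 3 → MvPolynomial (Fin 3) k := fun j => map φ (lp (g j))
  let f' : MvPolynomial (Fin 3) k := map φ (lp f)
  let v' : Fin τ → MvPolynomial (Fin 3) k := fun l => map φ (lp (v l))
  let u' : Fin μ → MvPolynomial (Fin 3) k := fun l => map φ (lp (u l))
  have h1' : idealOfVars (Fin 3) k ^ N ≤
      Ideal.span (Set.range g') ⊔ idealOfVars (Fin 3) k ^ (N + 1) := by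
    rw [pow_idealOfVars_eq_span N, Ideal.span_le]
    rintro _ ⟨γ, hγ, rfl⟩
    have hγ' : γ.degree = N := hγ
    let γ' : Low (N + 1) := ⟨γ, by omega⟩
    refine (mem_sup_iff_cert g' _ _).mpr ⟨fun j => map φ (lp (a1 γ' j)), ?_⟩
    have := transfer_pow i hi φ (N + 1) (monomial γ 1 - ∑ j, lp (a1 γ' j) * lp (g j)) (by
      simpa only [map_sub, map_sum, map_mul, map_monomial, map_one, ea1, eg] using ha1 γ' hγ')
    simpa only [map_sub, map_sum, map_mul, map_monomial, map_one] using this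
  have h2' : f' ^ a ∈ Ideal.span (Set.range g') ^ (a + 1) ⊔
      idealOfVars (Fin 3) k ^ (N * (a + 1)) := by
    have := transfer_pow i hi φ (N * (a + 1))
      (lp f ^ a - ∑ α : Δ, lp (a2 α) * mon (fun j => lp (g j)) α.1) (by
      simpa only [map_sub, map_sum, map_mul, map_pow, map_mon, ea2, eg, ef] using ha2)
    simp only [map_sub, map_sum, map_mul, map_pow, map_mon] at this
    have h3 : ∑ α : Δ, map φ (lp (a2 α)) * mon g' α.1 ∈ Ideal.span (Set.range g') ^ (a + 1) := by
      refine Ideal.sum_mem _ fun α _ => Ideal.mul_mem_left _ _ ?_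
      have := mon_mem g' α.1
      rwa [Finset.Nat.mem_antidiagonalTuple.mp α.2] at this
    have h4 := Ideal.add_mem _ (Ideal.mem_sup_left h3) (Ideal.mem_sup_right this)
    rwa [add_sub_cancel] at h4
  have hv' : ∀ p : MvPolynomial (Fin 3) k, ∃ (c : Fin τ → k) (r : MvPolynomial (Fin 3) k),
      p - ∑ l, c l • v' l - f' * r ∈ Ideal.span (Set.range g') ⊔ idealOfVars (Fin 3) k ^ N := by
    intro p
    induction p using MvPolynomial.induction_on' with
    | monomial γ c =>
      by_cases h : γ.degree < N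
      · let γ' : Low N := ⟨γ, h⟩
        have := transfer_pow i hi φ N (monomial γ 1 - ∑ l, C (ls (c3 γ' l)) * lp (v l) -
          lp f * lp (r3 γ') - ∑ j, lp (a3 γ' j) * lp (g j)) (by
          simpa only [map_sub, map_sum, map_mul, map_monomial, map_one, map_C, ec3, ev, ef, er3,
            ea3, eg] using ha3 γ')
        simp only [map_sub, map_sum, map_mul, map_monomial, map_one, map_C] at this
        have h5 := Ideal.mul_mem_left _ (C c) ((mem_sup_iff_cert g' _ _).mpr ⟨_, this⟩)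
        refine ⟨fun l => c * φ (ls (c3 γ' l)), C c * map φ (lp (r3 γ')), ?_⟩
        convert h5 using 1
        simp only [mul_sub, C_mul_monomial, mul_one, Finset.mul_sum, ← C_mul', map_mul, v', f']
        congr 1
        · congr 1
          exact Finset.sum_congr rfl fun l _ => by ring
        · ring
      · refine ⟨0, 0, ?_⟩
        have : (monomial γ c : MvPolynomial (Fin 3) k) = C c * monomial γ 1 := by
          simp [C_mul_monomial]
        simp only [Pi.zero_apply, zero_smul, Finset.sum_const_zero, sub_zero, mul_zero]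
        rw [this]
        exact Ideal.mem_sup_right (Ideal.mul_mem_left _ _
          ((monomial_mem_pow_idealOfVars_iff N γ one_ne_zero).mpr (by omega)))
    | add p q hp hq =>
      obtain ⟨c, r, h⟩ := hp
      obtain ⟨c', r', h'⟩ := hq
      refine ⟨c + c', r + r', ?_⟩
      convert Ideal.add_mem _ h h' using 1
      simp only [Pi.add_apply, add_smul, Finset.sum_add_distrib]
      ring
  let L' : Fin μ → MvPolynomial (Fin 3) k →ₗ[k] k := fun j => pair fun γ => φ (ls (w j γ))
  have hL' : ∀ j (p : MvPolynomial (Fin 3) A) (c : A), L j (map i p) = i c →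
      L' j (map φ p) = φ c := by
    intro j p c h
    have e1 := pair_map i (fun γ => ls (w j γ)) p
    simp only [ew] at e1
    rw [hw, h] at e1
    rw [hi e1]
    exact pair_map φ _ p
  have hL0' : ∀ j, ∀ p ∈ Ideal.span (Set.range g') ⊔ idealOfVars (Fin 3) k ^ N, L' j p = 0 := by
    intro j p hp
    obtain ⟨c, hc⟩ := (mem_sup_iff_cert g' _ _).mp hp
    have e1 : L' j _ = 0 := pair_eq_zero _ _ hc
    rw [map_sub, map_sum, Finset.sum_eq_zero, sub_zero] at e1
    · exact e1
    · intro s _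
      generalize c s = q
      induction q using MvPolynomial.induction_on' with
      | monomial γ c =>
        have e : (monomial γ c : MvPolynomial (Fin 3) k) = c • monomial γ 1 := by
          simp [smul_monomial]
        have := hL' j (monomial γ 1 * lp (g s)) 0 (by
          rw [map_zero, map_mul, eg]
          exact hL0 j _ (Ideal.mem_sup_left
            (Ideal.mul_mem_left _ _ (Ideal.subset_span ⟨s, rfl⟩))))
        rw [map_mul, map_monomial, map_one, map_zero] at this
        rw [e, smul_mul_assoc, map_smul, this, smul_zero]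
      | add p q hp hq => rw [add_mul, map_add, hp, hq, add_zero]
  have hLu' : ∀ j l, L' j (u' l) = if l = j then 1 else 0 := by
    intro j l
    have := hL' j (lp (u l)) (if l = j then 1 else 0) (by
      rw [eu, hLu]
      split_ifs <;> simp)
    rw [this]
    split_ifs <;> simp
  have := finite_quot k (Ideal.span (Set.range g')) N
  have hli : LinearIndependent k fun l => Ideal.Quotient.mkₐ k
      (Ideal.span (Set.range g') ⊔ idealOfVars (Fin 3) k ^ N) (u' l) := by
    rw [Fintype.linearIndependent_iff]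
    intro c hc j
    have h5 : ∑ l, c l • u' l ∈ Ideal.span (Set.range g') ⊔ idealOfVars (Fin 3) k ^ N := by
      rw [← Ideal.Quotient.eq_zero_iff_mem]
      change Ideal.Quotient.mkₐ k _ _ = 0
      rw [map_sum, ← hc]
      exact Finset.sum_congr rfl fun l _ => map_smul _ _ _
    have h6 := hL0' j _ h5
    simpa [hLu'] using h6
  have hle := hli.fintype_card_le_finrank
  rw [Fintype.card_fin] at hle
  have := charP_ineq g' f' N a h1' h2' v' hv' (lt_of_lt_of_le hμ hle)
  rw [Fintype.card_fin] at this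
  omega

end Pool.Agent.MP_75f689_ag

end

section

set_option autoImplicit false

namespace Pool.Agent.MP_75f689_ag

open MvPolynomial

variable {k : Type} [Field k]

/-- The inclusion of polynomials into power series. -/
noncomputable abbrev toS : MvPolynomial (Fin 3) k →+* MvPowerSeries (Fin 3) k :=
  coeToMvPowerSeries.ringHom

lemma exists_X_pow_mem (K : Ideal (MvPowerSeries (Fin 3) k))
    (hfin : Module.Finite k (MvPowerSeries (Fin 3) k ⧸ K)) :
    ∃ n, ∀ i, (MvPowerSeries.X i : MvPowerSeries (Fin 3) k) ^ n ∈ K := by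
  have : IsArtinianRing (MvPowerSeries (Fin 3) k ⧸ K) := IsArtinianRing.of_finite k _
  obtain ⟨n, hn⟩ := IsArtinianRing.isNilpotent_jacobson_bot (R := MvPowerSeries (Fin 3) k ⧸ K)
  refine ⟨n, fun i => ?_⟩
  rw [← Ideal.Quotient.eq_zero_iff_mem, map_pow]
  have h1 : Ideal.Quotient.mk K (MvPowerSeries.X i) ∈
      Ideal.jacobson (⊥ : Ideal (MvPowerSeries (Fin 3) k ⧸ K)) := by
    rw [Ideal.mem_jacobson_bot]
    intro y
    obtain ⟨y, rfl⟩ := Ideal.Quotient.mk_surjective y
    have : IsUnit (MvPowerSeries.X i * y + 1 : MvPowerSeries (Fin 3) k) := by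
      rw [MvPowerSeries.isUnit_iff_constantCoeff]
      simp
    simpa using this.map (Ideal.Quotient.mk K)
  have h2 := Ideal.pow_mem_pow h1 n
  rw [hn] at h2
  simpa using h2

lemma mem_of_coeff_eq_zero (K : Ideal (MvPowerSeries (Fin 3) k)) (n : ℕ)
    (hK : ∀ i, (MvPowerSeries.X i : MvPowerSeries (Fin 3) k) ^ n ∈ K)
    (φ : MvPowerSeries (Fin 3) k)
    (hφ : ∀ d : Fin 3 →₀ ℕ, d.degree < 3 * n → MvPowerSeries.coeff d φ = 0) : φ ∈ K := by
  classical
  let φ0 : MvPowerSeries (Fin 3) k := fun d => if n ≤ d 0 then MvPowerSeries.coeff d φ else 0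
  let φ1 : MvPowerSeries (Fin 3) k := fun d =>
    if d 0 < n ∧ n ≤ d 1 then MvPowerSeries.coeff d φ else 0
  have c0 : ∀ d, MvPowerSeries.coeff d φ0 = if n ≤ d 0 then MvPowerSeries.coeff d φ else 0 :=
    fun d => rfl
  have c1 : ∀ d, MvPowerSeries.coeff d φ1 =
      if d 0 < n ∧ n ≤ d 1 then MvPowerSeries.coeff d φ else 0 := fun d => rfl
  have h0 : φ0 ∈ K := by
    refine Ideal.mem_of_dvd K ?_ (hK 0)
    rw [MvPowerSeries.X_pow_dvd_iff]
    intro d hd
    rw [c0, if_neg (by omega)]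
  have h1 : φ1 ∈ K := by
    refine Ideal.mem_of_dvd K ?_ (hK 1)
    rw [MvPowerSeries.X_pow_dvd_iff]
    intro d hd
    rw [c1, if_neg (by omega)]
  have h2 : φ - φ0 - φ1 ∈ K := by
    refine Ideal.mem_of_dvd K ?_ (hK 2)
    rw [MvPowerSeries.X_pow_dvd_iff]
    intro d hd
    rw [map_sub, map_sub, c0, c1]
    by_cases e0 : n ≤ d 0
    · rw [if_pos e0, if_neg (by omega)]
      simp
    · by_cases e1 : n ≤ d 1
      · rw [if_neg e0, if_pos (by omega)]
        simp
      · rw [if_neg e0, if_neg (by omega), hφ d]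
        · simp
        · rw [Finsupp.degree_eq_sum, Fin.sum_univ_three]
          omega
  have := K.add_mem (K.add_mem h2 h1) h0
  simpa using this

lemma mem_sup_of_coe_mem (K : Ideal (MvPolynomial (Fin 3) k)) (p : MvPolynomial (Fin 3) k)
    (hp : toS p ∈ K.map toS) (L : ℕ) : p ∈ K ⊔ idealOfVars (Fin 3) k ^ L := by
  rw [← Ideal.mem_quotient_iff_mem_sup]
  let t := MvPowerSeries.truncTotalAlgHom (Fin 3) k L
  have ht : ∀ q : MvPolynomial (Fin 3) k, t (toS q) = Ideal.Quotient.mk _ q := fun q =>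
    t.commutes q
  have h1 : (K.map toS).map (t : MvPowerSeries (Fin 3) k →+* _) =
      K.map (Ideal.Quotient.mk (idealOfVars (Fin 3) k ^ L)) := by
    rw [Ideal.map_map]
    congr 1
    exact RingHom.ext ht
  rw [← h1, ← ht]
  exact Ideal.mem_map_of_mem _ hp

lemma coe_mem_of_mem_pow (K : Ideal (MvPowerSeries (Fin 3) k)) (n : ℕ)
    (hK : ∀ i, (MvPowerSeries.X i : MvPowerSeries (Fin 3) k) ^ n ∈ K)
    (p : MvPolynomial (Fin 3) k) (hp : p ∈ idealOfVars (Fin 3) k ^ (3 * n)) : toS p ∈ K := by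
  refine mem_of_coeff_eq_zero K n hK _ fun d hd => ?_
  rw [mem_pow_idealOfVars_iff'] at hp
  simpa using hp d hd

lemma finrank_eq (K : Ideal (MvPolynomial (Fin 3) k)) (n : ℕ)
    (hK : ∀ i, (MvPowerSeries.X i : MvPowerSeries (Fin 3) k) ^ n ∈ K.map toS) :
    Module.finrank k (MvPowerSeries (Fin 3) k ⧸ K.map toS) =
      Module.finrank k (MvPolynomial (Fin 3) k ⧸ (K ⊔ idealOfVars (Fin 3) k ^ (3 * n))) := by
  let ψ : MvPolynomial (Fin 3) k →ₐ[k] MvPowerSeries (Fin 3) k ⧸ K.map toS :=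
    (Ideal.Quotient.mkₐ k _).comp (coeToMvPowerSeries.algHom k)
  have hψ : ∀ p, ψ p = Ideal.Quotient.mk _ (toS p) := fun p => by
    simp [ψ]
  have hsurj : Function.Surjective ψ := by
    intro x
    obtain ⟨φ, rfl⟩ := Ideal.Quotient.mk_surjective x
    refine ⟨MvPowerSeries.truncTotal (3 * n) φ, ?_⟩
    rw [hψ, Ideal.Quotient.eq]
    refine mem_of_coeff_eq_zero _ n hK _ fun d hd => ?_
    simp [MvPowerSeries.coeff_truncTotal _ hd]
  have hker : RingHom.ker ψ = K ⊔ idealOfVars (Fin 3) k ^ (3 * n) := by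
    ext p
    rw [RingHom.mem_ker, hψ, Ideal.Quotient.eq_zero_iff_mem]
    refine ⟨fun h => mem_sup_of_coe_mem K p h _, fun h => ?_⟩
    have : K ⊔ idealOfVars (Fin 3) k ^ (3 * n) ≤ (K.map toS).comap toS :=
      sup_le Ideal.le_comap_map fun q hq => coe_mem_of_mem_pow _ n hK q hq
    exact this h
  exact (((Ideal.quotientEquivAlgOfEq k hker).symm.trans
    (Ideal.quotientKerAlgEquivOfSurjective hsurj)).toLinearEquiv.finrank_eq).symm

end Pool.Agent.MP_75f689_ag

end

section

set_option autoImplicit false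

namespace Pool.Agent.MP_75f689_ag

open MvPolynomial

lemma pow_mem_of_dependence {Q : Type*} [CommRing Q] (a J m : Ideal Q) (f : Q) (r N : ℕ)
    (hf : f ^ (r + 1) ∈ a * (a ⊔ Ideal.span {f}) ^ r) (ha : a ≤ m * J) (hm : m ^ N ≤ J) :
    f ^ (r + N * (r + 1)) ∈ J ^ (r + N * (r + 1) + 1) := by
  set I := a ⊔ Ideal.span {f} with hI
  have hfI : f ∈ I := Ideal.mem_sup_right (Ideal.mem_span_singleton_self f)
  have h0 : ∀ n, I ^ (n + 1) ≤ a * I ^ n ⊔ Ideal.span {f ^ (n + 1)} := by
    intro n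
    induction n with
    | zero => simp [hI]
    | succ n ih =>
      rw [pow_succ I (n + 1)]
      refine le_trans (Ideal.mul_mono_left ih) ?_
      rw [Ideal.sup_mul, mul_assoc, ← pow_succ]
      refine sup_le le_sup_left ?_
      conv_lhs => rw [hI]
      rw [Ideal.mul_sup, Ideal.span_singleton_mul_span_singleton, ← pow_succ]
      refine sup_le (le_trans ?_ le_sup_left) le_sup_right
      rw [mul_comm]
      exact Ideal.mul_mono_right
        ((Ideal.span_singleton_le_iff_mem _).mpr (Ideal.pow_mem_pow hfI _))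
  have h1 : I ^ (r + 1) ≤ a * I ^ r :=
    le_trans (h0 r) (sup_le le_rfl ((Ideal.span_singleton_le_iff_mem _).mpr hf))
  have h2 : ∀ t, I ^ (r + t) ≤ a ^ t * I ^ r := by
    intro t
    induction t with
    | zero => simp
    | succ t ih =>
      rw [← add_assoc, pow_succ I (r + t)]
      refine le_trans (Ideal.mul_mono_left ih) ?_
      rw [mul_assoc, ← pow_succ I r, pow_succ a t, mul_assoc]
      exact Ideal.mul_mono_right h1
  have h3 : a ^ (N * (r + 1)) ≤ J ^ (r + N * (r + 1) + 1) := by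
    refine le_trans (Ideal.pow_right_mono ha _) ?_
    rw [mul_pow, pow_mul m, show r + N * (r + 1) + 1 = (r + 1) + N * (r + 1) by ring,
      pow_add J (r + 1)]
    exact Ideal.mul_mono_left (Ideal.pow_right_mono hm _)
  have h4 : I ^ (r + N * (r + 1)) ≤ a ^ (N * (r + 1)) :=
    le_trans (h2 _) (le_trans Ideal.mul_le_inf inf_le_left)
  exact h3 (h4 (Ideal.pow_mem_pow hfI _))

lemma exists_pow_mem (f : MvPolynomial (Fin 3) ℂ) (hf : constantCoeff f = 0) (N : ℕ)
    (h1 : idealOfVars (Fin 3) ℂ ^ N ≤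
      Ideal.span (Set.range fun i => pderiv i f) ⊔ idealOfVars (Fin 3) ℂ ^ (N + 1)) :
    ∃ a, f ^ a ∈ Ideal.span (Set.range fun i => pderiv i f) ^ (a + 1) ⊔
      idealOfVars (Fin 3) ℂ ^ (N * (a + 1)) := by
  obtain ⟨r, h, hh, hmem⟩ := exists_dependence f hf
  refine ⟨r + N * (r + 1), ?_⟩
  set L := N * (r + N * (r + 1) + 1) with hL
  set m := idealOfVars (Fin 3) ℂ with hm
  set J := Ideal.span (Set.range fun i => pderiv i f) with hJ
  set a := Ideal.span (Set.range fun i => X i * pderiv i f) with ha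
  let mk := Ideal.Quotient.mk (m ^ L)
  rw [← Ideal.mem_quotient_iff_mem_sup, map_pow, Ideal.map_pow]
  have hu : IsUnit (mk h) := by
    have : IsNilpotent (mk (1 - h)) := by
      refine ⟨L, ?_⟩
      rw [← map_pow, Ideal.Quotient.eq_zero_iff_mem]
      exact Ideal.pow_mem_pow ((mem_idealOfVars_iff _).mpr (by simp [hh])) _
    simpa using this.isUnit_one_sub
  refine pow_mem_of_dependence (a.map mk) (J.map mk) (m.map mk) (mk f) r N ?_ ?_ ?_
  · have := Ideal.mem_map_of_mem mk hmem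
    rw [map_mul, map_pow, Ideal.unit_mul_mem_iff_mem _ hu, Ideal.map_mul, Ideal.map_pow,
      Ideal.map_sup, Ideal.map_span mk {f}, Set.image_singleton] at this
    exact this
  · rw [← Ideal.map_mul]
    refine Ideal.map_mono ?_
    rw [ha, Ideal.span_le]
    rintro _ ⟨i, rfl⟩
    exact Ideal.mul_mem_mul (Ideal.subset_span ⟨i, rfl⟩) (Ideal.subset_span ⟨i, rfl⟩)
  · rw [← Ideal.map_pow]
    refine le_trans (Ideal.map_mono (pow_le_sup_of_step m J N h1 L)) ?_
    rw [Ideal.map_sup]
    refine sup_le le_rfl (le_trans (le_of_eq ?_) bot_le)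
    rw [Ideal.map_eq_bot_iff_le_ker, Ideal.mk_ker]
    exact Ideal.pow_le_pow_right (by omega)

theorem main (f : MvPolynomial (Fin 3) ℂ) (hf : constantCoeff f = 0)
    (hd : ∀ i : Fin 3, constantCoeff (pderiv i f) = 0)
    (hfin : Module.Finite ℂ (MvPowerSeries (Fin 3) ℂ ⧸
      (Ideal.span (Set.range fun i => pderiv i f)).map toS)) :
    2 * Module.finrank ℂ (MvPowerSeries (Fin 3) ℂ ⧸
      (Ideal.span (Set.range fun i => pderiv i f)).map toS) <
    3 * Module.finrank ℂ (MvPowerSeries (Fin 3) ℂ ⧸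
      (Ideal.span (Set.range fun i => pderiv i f) ⊔ Ideal.span {f}).map toS) := by
  obtain ⟨n, hn⟩ := exists_X_pow_mem _ hfin
  set J := Ideal.span (Set.range fun i => pderiv i f) with hJ
  rw [finrank_eq J n hn, finrank_eq (J ⊔ Ideal.span {f}) n
    fun i => Ideal.map_mono le_sup_left (hn i)]
  have h1 : idealOfVars (Fin 3) ℂ ^ (3 * n) ≤ J ⊔ idealOfVars (Fin 3) ℂ ^ (3 * n + 1) :=
    fun p hp => mem_sup_of_coe_mem J p (coe_mem_of_mem_pow _ n hn p hp) _
  obtain ⟨a, h2⟩ := exists_pow_mem f hf _ h1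
  refine field_ineq _ f _ a h1 h2 ?_
  have := finite_quot ℂ J (3 * n)
  have hJm : J ≤ idealOfVars (Fin 3) ℂ := by
    rw [hJ, Ideal.span_le]
    rintro _ ⟨i, rfl⟩
    exact (mem_idealOfVars_iff _).mpr (hd i)
  have hne : J ⊔ idealOfVars (Fin 3) ℂ ^ (3 * n) ≠ ⊤ := by
    intro h
    have h3 : J ⊔ idealOfVars (Fin 3) ℂ ^ (3 * n) ≤ idealOfVars (Fin 3) ℂ :=
      sup_le hJm (le_trans h1 (sup_le hJm (Ideal.pow_le_self (by omega))))
    rw [h] at h3
    have h4 := (mem_idealOfVars_iff (1 : MvPolynomial (Fin 3) ℂ)).mp (h3 Submodule.mem_top)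
    simp at h4
  have := Ideal.Quotient.nontrivial_iff.mpr hne
  exact Module.finrank_pos

end Pool.Agent.MP_75f689_ag

end
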